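import Mathlib
import Pool.Agent.H29.NoDiff

set_option autoImplicit false

namespace Pool.Agent.Results.MP_047b76_an.Exists

open Set Pool.Agent.H29.NoDiff

/-- `c` restricted to the interval `I` (nonempty interior) is a unit speed `C¹` curve. -/
def UnitCurve {d : ℕ} (c : ℝ → EuclideanSpace ℝ (Fin d)) (I : Set ℝ) : Prop :=
  I.OrdConnected ∧ (interior I).Nonempty ∧ ContDiffOn ℝ 1 c I ∧ ∀ t ∈ I, ‖derivWithin c I t‖ = 1

theorem result (d : ℕ) : ∃ f : EuclideanSpace ℝ (Fin d) → ℝ, Continuous f ∧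
    ∀ c I, UnitCurve c I → ∀ t ∈ I, ¬ DifferentiableWithinAt ℝ (f ∘ c) I t := by
  let K := Fin d → Icc (-2 : ℝ) 2
  have ar : ∀ x, Real.arctan x ∈ Icc (-2 : ℝ) 2 := fun x =>
    ⟨by linarith [Real.neg_pi_div_two_lt_arctan x, Real.pi_le_four],
      by linarith [Real.arctan_lt_pi_div_two x, Real.pi_le_four]⟩
  let Φ : EuclideanSpace ℝ (Fin d) → K := fun x i => ⟨Real.arctan (x i), ar _⟩
  have hΦ : LipschitzWith 1 Φ := by
    refine LipschitzWith.of_dist_le_mul fun x y => ?_
    refine (dist_pi_le_iff (by positivity)).2 fun i => ?_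
    have h : LipschitzWith 1 Real.arctan := by
      refine lipschitzWith_of_nnnorm_deriv_le Real.differentiable_arctan fun u => ?_
      rw [← NNReal.coe_le_coe, coe_nnnorm, Real.deriv_arctan, Real.norm_eq_abs,
        abs_of_pos (by positivity), NNReal.coe_one, div_le_one (by positivity)]
      nlinarith
    refine (h.dist_le_mul _ _).trans ?_
    gcongr
    exact PiLp.dist_apply_le x y i
  let l : Fin d → C(K, ℝ) := fun i => ⟨fun x => (x i).1, by fun_prop⟩
  obtain ⟨f, hf⟩ := (gen l).2.nonempty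
  refine ⟨f ∘ Φ, f.continuous.comp hΦ.continuous, fun c I ⟨h1, h2, h3, h4⟩ t ht => ?_⟩
  have hd := h3.differentiableOn one_ne_zero t ht
  obtain ⟨i, v, hv, hl⟩ := curve hd (h4 t ht)
  obtain ⟨A, hA⟩ := hd.hasFDerivWithinAt.isBigO_sub.bound
  refine notdiff (l := l i) (c := Φ ∘ c) (fun m => mem_iInter.1 hf (i, m)) h1 h2 ht
    (hΦ.continuous.comp_continuousOn h3.continuousOn) (A := A) ?_ ?_ hl.arctan
  · filter_upwards [hA] with s hs
    refine (hΦ.dist_le_mul _ _).trans ?_
    rwa [NNReal.coe_one, one_mul, dist_eq_norm]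
  · positivity

end Pool.Agent.Results.MP_047b76_an.Exists
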